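import Mathlib
import Pool.Agent.H5.RigidConf

namespace Pool.Agent.Results.MP_409c19_co.Rigid21

open Pool.Agent.H5.RigidConf

theorem result : ∃ inc : Fin 21 → Fin 21 → Prop,
    (∀ i, {j | inc i j}.ncard = 4) ∧ (∀ j, {i | inc i j}.ncard = 4) ∧
    (∃ p l : Fin 21 → Fin 3 → ℝ, IsReal inc p l) ∧
    ∀ p l q m : Fin 21 → Fin 3 → ℝ, IsReal inc p l → IsReal inc q m → ProjEquiv p l q m := by
  refine ⟨inc0, ?_, ?_, ⟨_, _, real0⟩, rigid⟩
  · intro i
    rw [Set.ncard_eq_toFinset_card', Set.toFinset_setOf]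
    revert i
    decide +kernel
  · intro i
    rw [Set.ncard_eq_toFinset_card', Set.toFinset_setOf]
    revert i
    decide +kernel

end Pool.Agent.Results.MP_409c19_co.Rigid21
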